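import Mathlib
import Pool.Agent.Lib.MP_3ce754_lc.Ellentuck

set_option autoImplicit false

open Set Cardinal

namespace Pool.Agent.Results.MP_3ce754_lc.DistributivityLeBorel

/-- The space of infinite subsets of the natural numbers. -/
def InfSub : Type := {A : Set ℕ // A.Infinite}

/-- The characteristic function of an infinite set of naturals. -/
noncomputable def chi (A : InfSub) : ℕ → Bool := by
  classical exact fun n => decide (n ∈ A.1)

/-- The topology on `InfSub` is inherited from the Cantor space via characteristic functions. -/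
noncomputable instance : TopologicalSpace InfSub := TopologicalSpace.induced chi inferInstance

/-- The Borel structure on `InfSub` is the one generated by this topology. -/
noncomputable instance : MeasurableSpace InfSub := borel InfSub

/-- A family of infinite sets is almost disjoint. -/
def IsAD (F : Set InfSub) : Prop := ∀ A ∈ F, ∀ B ∈ F, A ≠ B → (A.1 ∩ B.1).Finite

/-- A mad family: infinite, almost disjoint, not properly contained in an almost disjoint family. -/
def IsMad (F : Set InfSub) : Prop := F.Infinite ∧ IsAD F ∧ ∀ G, IsAD G → F ⊆ G → G ⊆ F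

/-- The least size of a collection of almost disjoint families which are Borel subsets of
`InfSub` and whose union is mad. -/
noncomputable def aBorel : Cardinal.{0} :=
  sInf {κ | ∃ C : Set (Set InfSub), #C = κ ∧
    (∀ F ∈ C, MeasurableSet F ∧ IsAD F) ∧ IsMad (⋃₀ C)}

/-- The least size of a collection of almost disjoint families which are closed subsets of
`InfSub` and whose union is mad. -/
noncomputable def aClosed : Cardinal.{0} :=
  sInf {κ | ∃ C : Set (Set InfSub), #C = κ ∧
    (∀ F ∈ C, IsClosed F ∧ IsAD F) ∧ IsMad (⋃₀ C)}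

/-- Almost inclusion. -/
def SubStar (A B : InfSub) : Prop := (A.1 \ B.1).Finite

/-- Open subfamilies: closed downward under almost inclusion. -/
def IsOpenFam (D : Set InfSub) : Prop := ∀ A ∈ D, ∀ B, SubStar B A → B ∈ D

/-- Dense subfamilies. -/
def IsDenseFam (D : Set InfSub) : Prop := ∀ A, ∃ B ∈ D, SubStar B A

/-- The distributivity number. -/
noncomputable def distributivityNumber : Cardinal.{0} :=
  sInf {κ | ∃ C : Set (Set InfSub), #C = κ ∧
    (∀ D ∈ C, IsOpenFam D ∧ IsDenseFam D) ∧ ¬ IsDenseFam (⋂₀ C)}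

open Pool.Agent.Lib.MP_3ce754_lc

theorem chi_apply (A : InfSub) (n : ℕ) : chi A n = true ↔ n ∈ A.1 := by
  simp [chi]

theorem chi_inj : Function.Injective chi := by
  intro A B h
  apply Subtype.ext
  ext n
  rw [← chi_apply, ← chi_apply, h]

/-- Countable intersections of dense open families are dense. -/
theorem countable_dense (D : ℕ → Set InfSub) (ho : ∀ n, IsOpenFam (D n))
    (hd : ∀ n, IsDenseFam (D n)) : IsDenseFam (⋂ n, D n) := by
  intro A
  obtain ⟨B, hB, hB', h⟩ := fusion
    (fun c B => ∀ k ≤ c.card, ∀ hB : B.Infinite, (⟨B, hB⟩ : InfSub) ∈ D k) A.1 A.2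
    (by
      intro c B C hC h h1 k hk hC'
      have hBinf : B.Infinite := (Ab_infinite c hC).mono h
      refine ho k _ (h1 k hk hBinf) _ ?_
      have h2 : C \ B ⊆ Iic (c.sup id) := by
        intro n hn
        by_contra h3
        refine hn.2 (h ⟨hn.1, fun m hm => ?_⟩)
        have := Finset.le_sup (f := id) hm
        simp only [mem_Iic, not_le, id] at h3 this
        omega
      exact (finite_Iic _).subset h2)
    (by
      intro c B _ hB
      have : ∀ N : ℕ, ∃ C, C ⊆ B ∧ C.Infinite ∧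
          ∀ k < N, ∀ hC : C.Infinite, (⟨C, hC⟩ : InfSub) ∈ D k := by
        intro N
        induction N with
        | zero => exact ⟨B, Subset.rfl, hB, by simp⟩
        | succ N ih =>
          obtain ⟨C, h1, h2, h3⟩ := ih
          obtain ⟨E, h4, h5⟩ := hd N ⟨C, h2⟩
          have h6 : (E.1 ∩ C).Infinite := by
            have h8 : E.1 = (E.1 ∩ C) ∪ (E.1 \ C) := (inter_union_sdiff _ _).symm
            intro h7
            exact E.2 (h8 ▸ h7.union h5)
          refine ⟨E.1 ∩ C, inter_subset_right.trans h1, h6, fun k hk hC => ?_⟩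
          rcases Nat.lt_succ_iff_lt_or_eq.1 hk with h | h
          · refine ho k _ (h3 k h h2) _ ?_
            have : (E.1 ∩ C) \ C = ∅ := sdiff_eq_empty.2 inter_subset_right
            show ((E.1 ∩ C) \ C).Finite
            rw [this]; exact finite_empty
          · subst h
            refine ho k _ h4 _ ?_
            have : (E.1 ∩ C) \ E.1 = ∅ := sdiff_eq_empty.2 inter_subset_left
            show ((E.1 ∩ C) \ E.1).Finite
            rw [this]; exact finite_empty
      obtain ⟨C, h1, h2, h3⟩ := this (c.card + 1)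
      exact ⟨C, h1, h2, fun k hk => h3 k (Nat.lt_succ_of_le hk)⟩)
  refine ⟨⟨B, hB'⟩, mem_iInter.2 fun k => ?_, ?_⟩
  · obtain ⟨t, ht1, ht2⟩ := hB'.exists_subset_card_eq k
    exact h t ht1 k ht2.ge hB'
  · have : B \ A.1 = ∅ := sdiff_eq_empty.2 hB
    show (B \ A.1).Finite
    rw [this]; exact finite_empty

/-- The point in the `z (2 i)`-th column coded by `z (2 i + 1)`. -/
def hat (e : ℕ → ℕ → ℕ) (z : ℕ → ℕ) (i : ℕ) : ℕ := e (z (2 * i)) (z (2 * i + 1))

/-- `s` is an initial segment of `A`. -/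
def Init (s : List Bool) (A : InfSub) : Prop := ∀ i (h : i < s.length), chi A i = s[i]

/-- The sequences `z` whose coded set meets infinitely a member of `F` that extends `s`. -/
def XX (e : ℕ → ℕ → ℕ) (F : Set InfSub) (s : List Bool) : Set (ℕ → ℕ) :=
  {z | ∃ A ∈ F, Init s A ∧ {i | hat e z i ∈ A.1}.Infinite}

theorem XX_analytic (e : ℕ → ℕ → ℕ) (F : Set InfSub) (hF : MeasurableSet F)
    (s : List Bool) : MeasureTheory.AnalyticSet (XX e F s) := by
  have h1 : borel InfSub = (borel (ℕ → Bool)).comap chi := borel_comap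
  have hF' : @MeasurableSet InfSub (borel InfSub) F := hF
  rw [h1] at hF'
  obtain ⟨G, hG, hGF⟩ := hF'
  have hG' : MeasurableSet G := by
    rw [← BorelSpace.measurable_eq] at hG
    exact hG
  let T : Set ((ℕ → ℕ) × (ℕ → Bool)) := {p | p.2 ∈ G ∧ (∀ N, ∃ n, N ≤ n ∧ p.2 n = true) ∧
    (∀ i : Fin s.length, p.2 i = s[i]) ∧
    ∀ N, ∃ i, N ≤ i ∧ p.2 (e (p.1 (2 * i)) (p.1 (2 * i + 1))) = true}
  have hT : MeasurableSet T := by
    have m2 : ∀ n, Measurable fun p : (ℕ → ℕ) × (ℕ → Bool) => p.2 n :=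
      fun n => (measurable_pi_apply n).comp measurable_snd
    have m1 : ∀ n, Measurable fun p : (ℕ → ℕ) × (ℕ → Bool) => p.1 n :=
      fun n => (measurable_pi_apply n).comp measurable_fst
    have e1 : MeasurableSet {p : (ℕ → ℕ) × (ℕ → Bool) | p.2 ∈ G} := measurable_snd hG'
    have e2 : MeasurableSet {p : (ℕ → ℕ) × (ℕ → Bool) | ∀ N, ∃ n, N ≤ n ∧ p.2 n = true} := by
      have : {p : (ℕ → ℕ) × (ℕ → Bool) | ∀ N, ∃ n, N ≤ n ∧ p.2 n = true} =
          ⋂ N : ℕ, ⋃ n : ℕ, ⋃ _ : N ≤ n, (fun p : (ℕ → ℕ) × (ℕ → Bool) => p.2 n) ⁻¹' {true} := by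
        ext p; simp
      rw [this]
      exact MeasurableSet.iInter fun N => MeasurableSet.iUnion fun n => MeasurableSet.iUnion
        fun _ => m2 n (measurableSet_singleton _)
    have e3 : MeasurableSet {p : (ℕ → ℕ) × (ℕ → Bool) | ∀ i : Fin s.length, p.2 i = s[i]} := by
      have : {p : (ℕ → ℕ) × (ℕ → Bool) | ∀ i : Fin s.length, p.2 i = s[i]} =
          ⋂ i : Fin s.length, (fun p : (ℕ → ℕ) × (ℕ → Bool) => p.2 i) ⁻¹' {s[i]} := by
        ext p; simp
      rw [this]
      exact MeasurableSet.iInter fun i => m2 i (measurableSet_singleton _)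
    have e4 : ∀ i : ℕ, MeasurableSet {p : (ℕ → ℕ) × (ℕ → Bool) |
        p.2 (e (p.1 (2 * i)) (p.1 (2 * i + 1))) = true} := by
      intro i
      have : {p : (ℕ → ℕ) × (ℕ → Bool) | p.2 (e (p.1 (2 * i)) (p.1 (2 * i + 1))) = true} =
          ⋃ a : ℕ, ⋃ b : ℕ, ((fun p : (ℕ → ℕ) × (ℕ → Bool) => p.1 (2 * i)) ⁻¹' {a} ∩
            (fun p : (ℕ → ℕ) × (ℕ → Bool) => p.1 (2 * i + 1)) ⁻¹' {b}) ∩
            (fun p : (ℕ → ℕ) × (ℕ → Bool) => p.2 (e a b)) ⁻¹' {true} := by
        ext p
        simp only [mem_iUnion, mem_inter_iff, mem_preimage, mem_singleton_iff]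
        constructor
        · intro h
          exact ⟨_, _, ⟨rfl, rfl⟩, h⟩
        · rintro ⟨a, b, ⟨h1, h2⟩, h3⟩
          show p.2 (e (p.1 (2 * i)) (p.1 (2 * i + 1))) = true
          rw [h1, h2]; exact h3
      rw [this]
      exact MeasurableSet.iUnion fun a => MeasurableSet.iUnion fun b =>
        ((m1 _ (measurableSet_singleton _)).inter (m1 _ (measurableSet_singleton _))).inter
          (m2 _ (measurableSet_singleton _))
    have e5 : MeasurableSet {p : (ℕ → ℕ) × (ℕ → Bool) |
        ∀ N, ∃ i, N ≤ i ∧ p.2 (e (p.1 (2 * i)) (p.1 (2 * i + 1))) = true} := by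
      have : {p : (ℕ → ℕ) × (ℕ → Bool) |
        ∀ N, ∃ i, N ≤ i ∧ p.2 (e (p.1 (2 * i)) (p.1 (2 * i + 1))) = true} =
          ⋂ N : ℕ, ⋃ i : ℕ, ⋃ _ : N ≤ i, {p : (ℕ → ℕ) × (ℕ → Bool) |
            p.2 (e (p.1 (2 * i)) (p.1 (2 * i + 1))) = true} := by
        ext p; simp
      rw [this]
      exact MeasurableSet.iInter fun N => MeasurableSet.iUnion fun n => MeasurableSet.iUnion
        fun _ => e4 n
    exact e1.inter (e2.inter (e3.inter e5))
  have himg : XX e F s = Prod.fst '' T := by
    ext z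
    constructor
    · rintro ⟨A, hA, hs, hinf⟩
      refine ⟨(z, chi A), ⟨?_, ?_, ?_, ?_⟩, rfl⟩
      · rw [← hGF] at hA; exact hA
      · intro N
        obtain ⟨n, hn, hn'⟩ := A.2.exists_gt N
        exact ⟨n, hn'.le, (chi_apply A n).2 hn⟩
      · intro i
        exact hs i i.2
      · intro N
        obtain ⟨i, hi, hi'⟩ := hinf.exists_gt N
        exact ⟨i, hi'.le, (chi_apply A _).2 hi⟩
    · rintro ⟨⟨z', x⟩, ⟨hx1, hx2, hx3, hx4⟩, rfl⟩
      have hinf : {n | x n = true}.Infinite := by
        rw [infinite_iff_exists_gt]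
        intro N
        obtain ⟨n, hn, hn'⟩ := hx2 (N + 1)
        exact ⟨n, hn', by omega⟩
      let A : InfSub := ⟨{n | x n = true}, hinf⟩
      have hA : chi A = x := by
        funext n
        rw [Bool.eq_iff_iff, chi_apply]
        rfl
      refine ⟨A, ?_, ?_, ?_⟩
      · rw [← hGF, mem_preimage, hA]; exact hx1
      · intro i hi
        rw [hA]; exact hx3 ⟨i, hi⟩
      · rw [infinite_iff_exists_gt]
        intro N
        obtain ⟨n, hn, hn'⟩ := hx4 (N + 1)
        exact ⟨n, hn', by omega⟩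
  rw [himg]
  exact hT.analyticSet_image measurable_fst

/-- The sets `W` that are, up to a finite set, homogeneous for `XX e F s`. -/
def DD (e : ℕ → ℕ → ℕ) (F : Set InfSub) (s : List Bool) : Set InfSub :=
  {W | ∃ W0 : Set ℕ, (W.1 \ W0).Finite ∧
    ((∀ z : ℕ → ℕ, StrictMono z → (∀ i, z i ∈ W0) → z ∈ XX e F s) ∨
      (∀ z : ℕ → ℕ, StrictMono z → (∀ i, z i ∈ W0) → z ∉ XX e F s))}

theorem DD_open (e : ℕ → ℕ → ℕ) (F : Set InfSub) (s : List Bool) : IsOpenFam (DD e F s) := by
  rintro A ⟨W0, h1, h2⟩ B hB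
  refine ⟨W0, ?_, h2⟩
  refine (Set.Finite.union hB h1).subset ?_
  intro n hn
  by_cases h : n ∈ A.1
  · exact Or.inr ⟨h, hn.2⟩
  · exact Or.inl ⟨hn.1, h⟩

theorem DD_dense (e : ℕ → ℕ → ℕ) (F : Set InfSub) (hF : MeasurableSet F)
    (s : List Bool) : IsDenseFam (DD e F s) := by
  intro A
  obtain ⟨B, h1, h2, h3⟩ := silver (XX e F s) (XX_analytic e F hF s) A.1 A.2
  refine ⟨⟨B, h2⟩, ⟨B, ?_, h3⟩, ?_⟩
  · show (B \ B).Finite
    rw [sdiff_self]; exact finite_empty
  · show (B \ A.1).Finite
    rw [sdiff_eq_empty.2 h1]; exact finite_empty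

/-- Removing the first `2 k` elements does not change membership in `XX`. -/
theorem XX_shift (e : ℕ → ℕ → ℕ) (F : Set InfSub) (s : List Bool) (z : ℕ → ℕ) (k : ℕ) :
    (fun i => z (i + 2 * k)) ∈ XX e F s ↔ z ∈ XX e F s := by
  have h : ∀ i, hat e (fun i => z (i + 2 * k)) i = hat e z (i + k) := by
    intro i
    simp only [hat]
    have h1 : 2 * i + 2 * k = 2 * (i + k) := by ring
    have h2 : 2 * i + 1 + 2 * k = 2 * (i + k) + 1 := by ring
    rw [h1, h2]
  have h' : ∀ A : InfSub, {i | hat e (fun i => z (i + 2 * k)) i ∈ A.1}.Infinite ↔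
      {i | hat e z i ∈ A.1}.Infinite := by
    intro A
    simp only [h]
    rw [infinite_iff_exists_gt, infinite_iff_exists_gt]
    constructor
    · intro h1 N
      obtain ⟨n, hn, hn'⟩ := h1 N
      exact ⟨n + k, hn, by omega⟩
    · intro h1 N
      obtain ⟨n, hn, hn'⟩ := h1 (N + k)
      refine ⟨n - k, ?_, by omega⟩
      show hat e z (n - k + k) ∈ A.1
      rw [Nat.sub_add_cancel (by omega)]
      exact hn
  simp only [XX, mem_ofPred_eq, h']

/-- A member of `DD` decides membership in `XX` for its subsequences. -/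
theorem DD_decides {e : ℕ → ℕ → ℕ} {F : Set InfSub} {s : List Bool} {W : InfSub}
    (hW : W ∈ DD e F s) {z z' : ℕ → ℕ} (hz : StrictMono z) (hz' : StrictMono z')
    (hzW : ∀ i, z i ∈ W.1) (hzW' : ∀ i, z' i ∈ W.1) : z ∈ XX e F s ↔ z' ∈ XX e F s := by
  obtain ⟨W0, h1, h2⟩ := hW
  obtain ⟨N, hN⟩ := h1.bddAbove
  have key : ∀ y : ℕ → ℕ, StrictMono y → (∀ i, y i ∈ W.1) →
      ∀ i, y (i + 2 * (N + 1)) ∈ W0 := by
    intro y hy hyW i
    by_contra h
    have h3 := hN ⟨hyW (i + 2 * (N + 1)), h⟩
    have h4 := hy.id_le (i + 2 * (N + 1))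
    simp only [id] at h4
    omega
  have hsm : ∀ y : ℕ → ℕ, StrictMono y → StrictMono fun i => y (i + 2 * (N + 1)) :=
    fun y hy i j hij => hy (by omega)
  rw [← XX_shift e F s z (N + 1), ← XX_shift e F s z' (N + 1)]
  rcases h2 with h2 | h2
  · exact iff_of_true (h2 _ (hsm z hz) (key z hz hzW)) (h2 _ (hsm z' hz') (key z' hz' hzW'))
  · exact iff_of_false (h2 _ (hsm z hz) (key z hz hzW)) (h2 _ (hsm z' hz') (key z' hz' hzW'))

theorem init_eq {A B : InfSub} (h : ∀ s, Init s A → Init s B) : A = B := by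
  apply chi_inj
  funext n
  have h1 : Init ((List.range (n + 1)).map (chi A)) A := by
    intro i hi
    simp
  have h2 := h _ h1 n (by simp)
  rw [h2]
  simp

theorem main (C : Set (Set InfSub)) (hC : ∀ F ∈ C, MeasurableSet F ∧ IsAD F)
    (hmad : IsMad (⋃₀ C)) (hlt : #C < distributivityNumber) : False := by
  obtain ⟨hinf, had, hmax⟩ := hmad
  -- countably many members
  let A' : ℕ ↪ (⋃₀ C : Set InfSub) := hinf.natEmbedding
  let A : ℕ → InfSub := fun n => (A' n).1
  have hA : ∀ n, A n ∈ ⋃₀ C := fun n => (A' n).2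
  have hAinj : Function.Injective A := Subtype.val_injective.comp A'.injective
  have hex : ∀ n k : ℕ, ∃ x, k ≤ x ∧ x ∈ (A n).1 ∧ ∀ m < n, x ∉ (A m).1 := by
    intro n k
    have h1 : (⋃ m ∈ Finset.range n, (A n).1 ∩ (A m).1).Finite := by
      refine Set.Finite.biUnion (Finset.finite_toSet _) fun m hm => ?_
      refine had _ (hA n) _ (hA m) fun h => ?_
      have := hAinj h
      rw [Finset.mem_coe, Finset.mem_range] at hm
      omega
    obtain ⟨x, hx, hx'⟩ := ((A n).2.sdiff h1).exists_gt k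
    refine ⟨x, hx'.le, hx.1, fun m hm hm' => hx.2 ?_⟩
    exact mem_biUnion (Finset.mem_coe.2 (Finset.mem_range.2 hm)) ⟨hx.1, hm'⟩
  choose e he1 he2 he3 using hex
  -- the coded sets are infinite
  have hat_inj : ∀ z : ℕ → ℕ, StrictMono z → Function.Injective (hat e z) := by
    intro z hz
    have : ∀ i j, i < j → hat e z i ≠ hat e z j := by
      intro i j hij h
      have h1 : hat e z j ∉ (A (z (2 * i))).1 := he3 _ _ _ (hz (by omega))
      exact h1 (h ▸ he2 _ _)
    intro i j h
    rcases lt_trichotomy i j with h1 | h1 | h1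
    · exact absurd h (this i j h1)
    · exact h1
    · exact absurd h.symm (this j i h1)
  -- the coded sets are almost disjoint from all `A n`
  have hat_A : ∀ z : ℕ → ℕ, StrictMono z → ∀ n, {i | hat e z i ∈ (A n).1}.Finite := by
    intro z hz n
    refine (finite_Iic n).subset fun i hi => ?_
    by_contra h
    simp only [mem_Iic, not_le] at h
    have h1 := hz.id_le (2 * i)
    simp only [id] at h1
    exact he3 (z (2 * i)) (z (2 * i + 1)) n (by omega) hi
  -- the generic set
  let EE : Set InfSub → Set InfSub := fun F => ⋂ s : List Bool, DD e F s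
  have hEo : ∀ F, IsOpenFam (EE F) := by
    intro F B hB B' hB'
    exact mem_iInter.2 fun s => DD_open e F s B (mem_iInter.1 hB s) B' hB'
  have hEd : ∀ F ∈ C, IsDenseFam (EE F) := by
    intro F hF
    have h1 := countable_dense (fun n => match Encodable.decode (α := List Bool) n with
      | some s => DD e F s
      | none => Set.univ)
      (by
        intro n
        rcases Encodable.decode (α := List Bool) n with _ | s
        · intro _ _ _ _; trivial
        · exact DD_open e F s)
      (by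
        intro n
        rcases Encodable.decode (α := List Bool) n with _ | s
        · intro B
          refine ⟨B, trivial, ?_⟩
          show (B.1 \ B.1).Finite
          rw [sdiff_self]; exact finite_empty
        · exact DD_dense e F (hC F hF).1 s)
    intro B
    obtain ⟨B', hB', hBB'⟩ := h1 B
    refine ⟨B', mem_iInter.2 fun s => ?_, hBB'⟩
    have := mem_iInter.1 hB' (Encodable.encode s)
    simpa only [Encodable.encodek] using this
  have hgen : IsDenseFam (⋂₀ (EE '' C)) := by
    by_contra hnd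
    have h1 : distributivityNumber ≤ #(EE '' C : Set (Set InfSub)) := by
      refine csInf_le' ⟨EE '' C, rfl, ?_, hnd⟩
      rintro _ ⟨F, hF, rfl⟩
      exact ⟨hEo F, hEd F hF⟩
    exact absurd (h1.trans mk_image_le) (not_le.2 hlt)
  obtain ⟨W, hW, -⟩ := hgen (A 0)
  have hW' : ∀ F ∈ C, ∀ s, W ∈ DD e F s := by
    intro F hF s
    exact mem_iInter.1 (hW (EE F) (mem_image_of_mem _ hF)) s
  -- a member of the mad family meeting the set coded by `W`
  let zW : ℕ → ℕ := en W.1
  have hzW : StrictMono zW := en_strictMono W.2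
  have hzW' : ∀ i, zW i ∈ W.1 := en_mem W.2
  let H : InfSub := ⟨range (hat e zW), infinite_range_of_injective (hat_inj zW hzW)⟩
  obtain ⟨B, hB, hBinf⟩ : ∃ B ∈ ⋃₀ C, ¬ (B.1 ∩ H.1).Finite := by
    by_contra hc
    push Not at hc
    have h1 : IsAD (insert H (⋃₀ C)) := by
      rintro P (rfl | hP) Q (rfl | hQ) hne
      · exact absurd rfl hne
      · rw [inter_comm]; exact hc Q hQ
      · exact hc P hP
      · exact had P hP Q hQ hne
    have h2 := hmax _ h1 (subset_insert _ _) (mem_insert _ _)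
    have h3 := hc H h2
    rw [inter_self] at h3
    exact H.2 h3
  obtain ⟨F, hF, hBF⟩ := hB
  have hBU : B ∈ ⋃₀ C := ⟨F, hF, hBF⟩
  have hI : {i | hat e zW i ∈ B.1}.Infinite := by
    intro h
    apply hBinf
    refine (h.image (hat e zW)).subset ?_
    rintro _ ⟨h1, ⟨i, rfl⟩⟩
    exact ⟨i, h1, rfl⟩
  -- a sequence all of whose coded points are in `B`
  let I : ℕ → ℕ := en {i | hat e zW i ∈ B.1}
  have hIm : StrictMono I := en_strictMono hI
  have hIB : ∀ j, hat e zW (I j) ∈ B.1 := en_mem hI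
  let z1 : ℕ → ℕ := fun n => zW (2 * I (n / 2) + n % 2)
  have hz1 : StrictMono z1 := by
    apply strictMono_nat_of_lt_succ
    intro n
    apply hzW
    rcases Nat.even_or_odd' n with ⟨m, rfl | rfl⟩
    · have h1 : (2 * m) / 2 = m := by omega
      have h2 : (2 * m + 1) / 2 = m := by omega
      rw [h1, h2]
      omega
    · have h1 : (2 * m + 1) / 2 = m := by omega
      have h2 : (2 * m + 1 + 1) / 2 = m + 1 := by omega
      have h3 : I m < I (m + 1) := hIm (by omega)
      rw [h1, h2]
      omega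
  have hz1W : ∀ i, z1 i ∈ W.1 := fun i => hzW' _
  have hat1 : ∀ j, hat e z1 j = hat e zW (I j) := by
    intro j
    simp only [hat, z1]
    have h1 : (2 * j) / 2 = j := by omega
    have h2 : (2 * j + 1) / 2 = j := by omega
    have h3 : (2 * j) % 2 = 0 := by omega
    have h4 : (2 * j + 1) % 2 = 1 := by omega
    rw [h1, h2, h3, h4, Nat.add_zero]
  have hX1 : ∀ s, z1 ∈ XX e F s ↔ Init s B := by
    intro s
    constructor
    · rintro ⟨B', hB', hs, hinf'⟩
      have : B' = B := by
        by_contra hne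
        have h1 := had B' ⟨F, hF, hB'⟩ B hBU hne
        refine hinf' ((h1.preimage (hat_inj z1 hz1).injOn).subset ?_)
        intro i hi
        refine ⟨hi, ?_⟩
        rw [hat1]
        exact hIB i
      exact this ▸ hs
    · intro hs
      refine ⟨B, hBF, hs, ?_⟩
      have : {i | hat e z1 i ∈ B.1} = Set.univ := by
        ext i
        simp only [mem_ofPred_eq, mem_univ, iff_true]
        rw [hat1]
        exact hIB i
      rw [this]
      exact infinite_univ
  -- a sequence all of whose coded points are outside `B`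
  have hBA : ∀ n, B ≠ A n := by
    intro n h
    exact hI (h ▸ hat_A zW hzW n)
  have hbd : ∀ n, ∃ b, ∀ k, b ≤ k → e n k ∉ B.1 := by
    intro n
    obtain ⟨b, hb⟩ := (had B hBU (A n) (hA n) (hBA n)).bddAbove
    refine ⟨b + 1, fun k hk hk' => ?_⟩
    have h1 := hb ⟨hk', he2 n k⟩
    have h2 := he1 n k
    omega
  choose bd hbd using hbd
  let ψ : ℕ → ℕ := fun n => Nat.rec 0 (fun _ x => max (x + 1) (bd (zW x))) n
  have hψs : ∀ n, ψ (n + 1) = max (ψ n + 1) (bd (zW (ψ n))) := fun n => rfl
  have hψ : StrictMono ψ := by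
    apply strictMono_nat_of_lt_succ
    intro n
    rw [hψs]
    exact lt_of_lt_of_le (Nat.lt_succ_self _) (le_max_left _ _)
  let z2 : ℕ → ℕ := zW ∘ ψ
  have hz2 : StrictMono z2 := hzW.comp hψ
  have hz2W : ∀ i, z2 i ∈ W.1 := fun i => hzW' _
  have hat2 : ∀ i, hat e z2 i ∉ B.1 := by
    intro i
    apply hbd
    have h1 := hzW.id_le (ψ (2 * i + 1))
    simp only [id] at h1
    refine le_trans ?_ h1
    rw [hψs]
    exact le_max_right _ _
  have hX2 : ∀ s, z2 ∈ XX e F s ↔ Init s B := fun s =>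
    (DD_decides (hW' F hF s) hz2 hz1 hz2W hz1W).trans (hX1 s)
  obtain ⟨B', hB', -, hinf'⟩ := (hX2 []).2 (fun i hi => by simp at hi)
  have h1 : B' = B := init_eq fun s hs => (hX2 s).1 ⟨B', hB', hs, hinf'⟩
  rw [h1] at hinf'
  refine hinf' ?_
  have : {i | hat e z2 i ∈ B.1} = ∅ := by
    ext i
    simp only [mem_ofPred_eq, mem_empty_iff_false, iff_false]
    exact hat2 i
  rw [this]
  exact finite_empty

/-- There is an infinite mad family. -/
theorem exists_mad : ∃ F : Set InfSub, IsMad F := by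
  -- an infinite almost disjoint family
  let P : ℕ → InfSub := fun n => ⟨{x | x.unpair.1 = n}, by
    have h : Function.Injective fun k => Nat.pair n k := by
      intro k k' h
      have := congrArg (fun x => x.unpair.2) h
      simpa using this
    refine (infinite_range_of_injective h).mono ?_
    rintro _ ⟨k, rfl⟩
    simp⟩
  have hPd : ∀ m n, m ≠ n → ((P m).1 ∩ (P n).1) = ∅ := by
    intro m n hmn
    ext x
    simp only [mem_inter_iff, mem_empty_iff_false, iff_false]
    rintro ⟨h1, h2⟩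
    have h1' : x.unpair.1 = m := h1
    have h2' : x.unpair.1 = n := h2
    exact hmn (h1'.symm.trans h2')
  have hPinj : Function.Injective P := by
    intro m n h
    by_contra hmn
    have h1 := hPd m n hmn
    rw [h, inter_self] at h1
    have := (P n).2
    rw [h1] at this
    exact this finite_empty
  have hPad : IsAD (range P) := by
    rintro _ ⟨m, rfl⟩ _ ⟨n, rfl⟩ hne
    have hmn : m ≠ n := fun h => hne (by rw [h])
    rw [hPd m n hmn]
    exact finite_empty
  obtain ⟨F, hF, hF'⟩ := zorn_subset_nonempty {G : Set InfSub | IsAD G} (by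
    intro c hc hchain _
    refine ⟨⋃₀ c, ?_, fun s hs => subset_sUnion_of_mem hs⟩
    rintro A ⟨s, hs, hA⟩ B ⟨t, ht, hB⟩ hne
    rcases hchain.total hs ht with h | h
    · exact hc ht A (h hA) B hB hne
    · exact hc hs A hA B (h hB) hne) (range P) hPad
  refine ⟨F, (infinite_range_of_injective hPinj).mono hF, hF'.prop, ?_⟩
  intro G hG hFG
  exact hF'.le_of_ge hG hFG

instance : T2Space InfSub := by
  have h : Topology.IsInducing chi := ⟨rfl⟩
  exact (Topology.IsEmbedding.mk h chi_inj).t2Space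

instance : BorelSpace InfSub := ⟨rfl⟩

theorem closed_nonempty : {κ : Cardinal.{0} | ∃ C : Set (Set InfSub), #C = κ ∧
    (∀ F ∈ C, IsClosed F ∧ IsAD F) ∧ IsMad (⋃₀ C)}.Nonempty := by
  obtain ⟨F, hF⟩ := exists_mad
  refine ⟨_, (fun A => ({A} : Set InfSub)) '' F, rfl, ?_, ?_⟩
  · rintro _ ⟨A, _, rfl⟩
    refine ⟨isClosed_singleton, ?_⟩
    rintro P hP Q hQ hne
    rw [mem_singleton_iff] at hP hQ
    exact absurd (hP.trans hQ.symm) hne
  · have : ⋃₀ ((fun A => ({A} : Set InfSub)) '' F) = F := by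
      ext A
      simp
    rw [this]
    exact hF

/-- The distributivity number is at most the Borel mad-family number, and the latter is at most the
closed mad-family number. -/
theorem result : distributivityNumber ≤ aBorel ∧ aBorel ≤ aClosed := by
  have hsub : {κ : Cardinal.{0} | ∃ C : Set (Set InfSub), #C = κ ∧
      (∀ F ∈ C, IsClosed F ∧ IsAD F) ∧ IsMad (⋃₀ C)} ⊆
      {κ | ∃ C : Set (Set InfSub), #C = κ ∧
        (∀ F ∈ C, MeasurableSet F ∧ IsAD F) ∧ IsMad (⋃₀ C)} := by
    rintro κ ⟨C, h1, h2, h3⟩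
    exact ⟨C, h1, fun F hF => ⟨(h2 F hF).1.measurableSet, (h2 F hF).2⟩, h3⟩
  refine ⟨?_, ?_⟩
  · obtain ⟨C, h1, h2, h3⟩ := csInf_mem (closed_nonempty.mono hsub)
    by_contra hlt
    push Not at hlt
    refine main C h2 h3 ?_
    rw [h1]
    exact hlt
  · exact csInf_le_csInf' closed_nonempty hsub

end Pool.Agent.Results.MP_3ce754_lc.DistributivityLeBorel
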